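import Pool.Agent.V11252.DMB.Layer

/-! MP_a57f33_nt: a family of relations, modulo products, which follow from the regularized double
shuffle relations: every word is a combination of ballot words with at most as many letters `x₀`.

Uses the work of helper19, helper759 and others on `dm`. -/

set_option autoImplicit false

namespace Pool.Agent.Results.MP_a57f33_nt.BallotRelations

open Pool.Agent.H777R4.DM

/-- A ballot word: it ends with `x₁`, and no prefix has more letters `x₀` than letters `x₁`. -/
def Ballot (u : List (Fin 2)) : Prop :=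
  u.getLast? = some 1 ∧ ∀ p, p <+: u → p.count 0 ≤ p.count 1

/-- `dm` as a subspace of `ℚ⟨x₀, x₁⟩` -/
def dmSub : Submodule ℚ A where
  carrier := {ψ | IsDM ψ}
  add_mem' := fun h1 h2 => isDM_add h1 h2
  zero_mem' := isDM_zero
  smul_mem' := fun c _ h => isDM_smul h c

/-- the coefficient at `v` as a linear form on `dm` -/
noncomputable def form (v : List (Fin 2)) : dmSub →ₗ[ℚ] ℚ where
  toFun ψ := co (ψ : A) v
  map_add' ψ φ := by rw [Submodule.coe_add, co_add]
  map_smul' c ψ := by rw [Submodule.coe_smul, co_smul]; rfl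

/-- For every word `u` there are ballot words `v` of the same length, with at most as many letters
`x₀` as `u`, and rational coefficients `c v` such that `(ψ | u) = ∑ c v (ψ | v)` for all `ψ` in the
double shuffle Lie algebra `dm`.  The ballot words of length `N` have fewer than `N / 2` letters
`x₀`. -/
theorem result (u : List (Fin 2)) :
    (∃ (S : Finset (List (Fin 2))) (c : List (Fin 2) → ℚ),
      (∀ v ∈ S, Ballot v ∧ v.length = u.length ∧ v.count 0 ≤ u.count 0) ∧
      ∀ ψ : A, IsDM ψ → co ψ u = ∑ v ∈ S, c v * co ψ v) ∧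
    (Ballot u → 2 * u.count 0 < u.length) := by
  classical
  refine ⟨?_, fun h => Pool.Agent.V11252.DMB.ballot_lt h⟩
  have hfin : {v : List (Fin 2) | Ballot v ∧ v.length = u.length ∧ v.count 0 ≤ u.count 0}.Finite :=
    (List.finite_length_eq (Fin 2) u.length).subset fun v hv => hv.2.1
  set S := hfin.toFinset with hS
  have hmem : ∀ v, v ∈ S ↔ (Ballot v ∧ v.length = u.length ∧ v.count 0 ≤ u.count 0) := by
    intro v
    rw [hS, Set.Finite.mem_toFinset]
    rfl
  have hker : ⨅ v : S, LinearMap.ker (form (v : List (Fin 2))) ≤ LinearMap.ker (form u) := by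
    intro ψ hψ
    rw [Submodule.mem_iInf] at hψ
    rw [LinearMap.mem_ker]
    change co (ψ : A) u = 0
    have h1 : IsDM (comp u.length (ψ : A)) := Pool.Agent.H217R3.DMC.taskComp ψ _ ψ.2
    have h2 := Pool.Agent.V11252.DMB.layer' h1 (N := u.length) (M := u.count 0 + 1) (by
      intro w hw
      rw [co_comp] at hw
      by_contra hne
      rw [if_neg hne] at hw
      exact hw rfl) (by
      intro v hv hb hc
      rw [co_comp, if_pos hv]
      have := hψ ⟨v, (hmem v).2 ⟨hb, hv, by omega⟩⟩
      rw [LinearMap.mem_ker] at this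
      exact this)
    by_contra hne
    have h3 := h2 u (by rw [co_comp, if_pos rfl]; exact hne)
    omega
  have hspan := mem_span_of_iInf_ker_le_ker hker
  rw [Submodule.mem_span_range_iff_exists_fun] at hspan
  obtain ⟨c, hc⟩ := hspan
  refine ⟨S, fun v => if h : v ∈ S then c ⟨v, h⟩ else 0, fun v hv => (hmem v).1 hv, ?_⟩
  intro ψ h
  have h1 := congrArg (fun L : dmSub →ₗ[ℚ] ℚ => L ⟨ψ, h⟩) hc
  simp only [LinearMap.sum_apply, LinearMap.smul_apply, smul_eq_mul] at h1
  have h2 : form u ⟨ψ, h⟩ = co ψ u := rfl
  rw [h2] at h1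
  rw [← h1, ← Finset.sum_coe_sort S]
  refine Finset.sum_congr rfl fun v _ => ?_
  change c v * co ψ v = (if h : (v : List (Fin 2)) ∈ S then c ⟨v, h⟩ else 0) * co ψ v
  rw [dif_pos v.2]

end Pool.Agent.Results.MP_a57f33_nt.BallotRelations
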